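import Pool.Agent.X238.Dft.Inf

/-!
# The infinite defect is computable
-/

namespace Pool.Agent.X238.Dft

open Primrec

section general

variable {α : Type*} [Primcodable α]

theorem ex_lt {R : ℕ → α → Prop} (hf : PrimrecRel R) : PrimrecRel fun n y ↦ ∃ x < n, R x y :=
  (hf.exists_mem_list.comp (list_range.comp fst) snd).of_eq (by simp)

theorem all_lt {R : ℕ → α → Prop} (hf : PrimrecRel R) : PrimrecRel fun n y ↦ ∀ x < n, R x y :=
  (hf.forall_mem_list.comp (list_range.comp fst) snd).of_eq (by simp)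

end general

theorem prim_gl : Primrec₂ gl := Primrec.list_getD 0

theorem prim_P : PrimrecPred fun y : List ℕ × ℕ × ℕ => P (gl y.1) y.2.1 y.2.2 := by
  have hR : PrimrecRel fun (i : ℕ) (y : List ℕ × ℕ × ℕ) =>
      gl y.1 (y.2.1 + i) = gl y.1 (y.2.1 + y.2.2 - 1 - i) := by
    refine Primrec.eq.comp ?_ ?_
    · exact prim_gl.comp (fst.comp snd) (nat_add.comp (fst.comp (snd.comp snd)) fst)
    · exact prim_gl.comp (fst.comp snd)
        (nat_sub.comp (nat_sub.comp (nat_add.comp (fst.comp (snd.comp snd))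
          (snd.comp (snd.comp snd))) (const 1)) fst)
  exact (all_lt hR).comp (snd.comp snd) .id

theorem prim_E : PrimrecPred fun y : List ℕ × ℕ × ℕ × ℕ => E (gl y.1) y.2.1 y.2.2.1 y.2.2.2 := by
  have hR : PrimrecRel fun (i : ℕ) (y : List ℕ × ℕ × ℕ × ℕ) =>
      gl y.1 (y.2.1 + i) = gl y.1 (y.2.2.1 + i) := by
    refine Primrec.eq.comp ?_ ?_
    · exact prim_gl.comp (fst.comp snd) (nat_add.comp (fst.comp (snd.comp snd)) fst)
    · exact prim_gl.comp (fst.comp snd) (nat_add.comp (fst.comp (snd.comp (snd.comp snd))) fst)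
  exact (all_lt hR).comp (snd.comp (snd.comp snd)) .id

theorem prim_New : PrimrecPred fun y : List ℕ × ℕ => New (gl y.1) y.2 := by
  have h1 : PrimrecRel fun (j : ℕ) (y : ℕ × List ℕ × ℕ) =>
      ¬ E (gl y.2.1) j y.1 (y.2.2 - y.1) := by
    refine PrimrecPred.not (prim_E.comp (Primrec.pair (fst.comp (snd.comp snd))
      (Primrec.pair fst (Primrec.pair (fst.comp snd)
        (nat_sub.comp (snd.comp (snd.comp snd)) (fst.comp snd))))))
  have h2 : PrimrecRel fun (c : ℕ) (y : List ℕ × ℕ) =>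
      P (gl y.1) c (y.2 - c) ∧ ∀ j < c, ¬ E (gl y.1) j c (y.2 - c) := by
    refine PrimrecPred.and ?_ ?_
    · exact prim_P.comp (Primrec.pair (fst.comp snd) (Primrec.pair fst
        (nat_sub.comp (snd.comp snd) fst)))
    · exact (all_lt h1).comp (f := fun a : ℕ × List ℕ × ℕ => a.1) fst .id
  exact (ex_lt h2).comp snd .id

open Classical in
theorem defect_eq_filter (w : List ℕ) :
    defect w = ((List.range w.length).filter fun m => ¬ New (gl w) (m + 1)).length := by
  rw [defect_eq]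
  rfl

theorem prim_defect : Primrec defect := by
  classical
  have hR : PrimrecRel fun (m : ℕ) (w : List ℕ) => ¬ New (gl w) (m + 1) :=
    PrimrecPred.not (prim_New.comp (Primrec.pair snd (succ.comp fst)))
  refine (list_length.comp (hR.listFilter.comp (list_range.comp list_length) .id)).of_eq
    fun w => ?_
  rw [defect_eq_filter]
  rfl

theorem prim_Cert : PrimrecPred fun y : List ℕ × ℕ × ℕ => CertL y.1 y.2.1 y.2.2 := by
  have hX : Primrec fun y : List ℕ × ℕ × ℕ => y.1 := fst
  have hc : Primrec fun y : List ℕ × ℕ × ℕ => y.2.1 := fst.comp snd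
  have hl : Primrec fun y : List ℕ × ℕ × ℕ => y.2.2 := snd.comp snd
  have hL : Primrec fun y : List ℕ × ℕ × ℕ => y.1.length := list_length.comp hX
  have h1 : PrimrecRel fun (j : ℕ) (y : List ℕ × ℕ × ℕ) =>
      j = y.2.1 ∨ ¬ E (gl y.1) j y.2.1 y.2.2 := by
    refine PrimrecPred.or (Primrec.eq.comp fst (hc.comp snd)) (PrimrecPred.not ?_)
    exact prim_E.comp (Primrec.pair (hX.comp snd) (Primrec.pair fst
      (Primrec.pair (hc.comp snd) (hl.comp snd))))
  have h2 : PrimrecPred fun y : List ℕ × ℕ × ℕ =>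
      y.2.1 + y.2.2 < y.1.length ∧ P (gl y.1) y.2.1 (y.1.length - y.2.1) ∧
      P (gl y.1) y.2.1 y.2.2 ∧
      (∀ j < y.1.length - y.2.2, j = y.2.1 ∨ ¬ E (gl y.1) j y.2.1 y.2.2) ∧
      (y.2.1 = 0 ∨ ¬ gl y.1 (y.2.1 - 1) = gl y.1 (y.1.length - y.2.2 - 1)) := by
    refine PrimrecPred.and ?_ (PrimrecPred.and ?_ (PrimrecPred.and ?_ (PrimrecPred.and ?_ ?_)))
    · exact nat_lt.comp (nat_add.comp hc hl) hL
    · exact prim_P.comp (Primrec.pair hX (Primrec.pair hc (nat_sub.comp hL hc)))
    · exact prim_P.comp (Primrec.pair hX (Primrec.pair hc hl))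
    · exact (all_lt h1).comp (nat_sub.comp hL hl) .id
    · refine PrimrecPred.or (Primrec.eq.comp hc (const 0)) (PrimrecPred.not ?_)
      exact Primrec.eq.comp (prim_gl.comp hX (nat_sub.comp hc (const 1)))
        (prim_gl.comp hX (nat_sub.comp (nat_sub.comp hL hl) (const 1)))
  refine h2.of_eq fun y => ?_
  unfold CertL Cert
  refine and_congr Iff.rfl (and_congr Iff.rfl (and_congr Iff.rfl (and_congr ?_ Iff.rfl)))
  constructor
  · intro h j hj hjc
    rcases h j hj with h3 | h3
    · exact absurd h3 hjc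
    · exact h3
  · intro h j hj
    by_cases hjc : j = y.2.1
    · exact Or.inl hjc
    · exact Or.inr (h j hj hjc)

theorem prim_words : Primrec₂ words := by
  have h1 : Primrec₂ fun (y : List ℕ × ℕ × List (List ℕ)) (s : List ℕ) =>
      y.1.map fun a => a :: s := by
    refine Primrec.list_map (fst.comp fst) ?_
    exact Primrec.list_cons.comp snd (snd.comp fst)
  have h2 : Primrec₂ fun (w : List ℕ) (p : ℕ × List (List ℕ)) =>
      p.2.flatMap fun s => w.map fun a => a :: s :=
    Primrec.list_flatMap (snd.comp snd) h1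
  refine (Primrec.nat_rec (const [[]]) h2).of_eq fun w n => ?_
  induction n with
  | zero => rfl
  | succ n ih =>
    show List.flatMap _ _ = words w (n + 1)
    simp only at ih ⊢
    rw [ih]
    rfl

theorem prim_mem : PrimrecRel fun (a : ℕ) (w : List ℕ) => a ∈ w := by
  have h : PrimrecRel fun (w : List ℕ) (a : ℕ) => ∃ b ∈ w, b = a :=
    PrimrecRel.exists_mem_list (R := fun b a => b = a) Primrec.eq
  refine (h.comp (f := fun p : ℕ × List ℕ => p.2) (g := fun p : ℕ × List ℕ => p.1)
    snd fst).of_eq fun p => ?_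
  simp

theorem prim_prefix : PrimrecRel fun (w X : List ℕ) => w <+: X := by
  refine (Primrec.eq.comp (f := fun p : List ℕ × List ℕ => p.2.take p.1.length)
    (g := fun p : List ℕ × List ℕ => p.1)
    (list_take.comp (list_length.comp fst) snd) fst).of_eq fun p => ?_
  show _ ↔ p.1 <+: p.2
  rw [List.prefix_iff_eq_take]
  exact eq_comm

/-- the search space: `(k, n, X, c, l)` -/
abbrev Q := ℕ × ℕ × List ℕ × ℕ × ℕ

/-- the test: `q` proves that the infinite defect of `w` is `q.1` -/
def R (w : List ℕ) (q : Q) : Prop :=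
  ((w <+: q.2.2.1 ∨ w.reverse <+: q.2.2.1) ∧ (∀ a ∈ q.2.2.1, a ∈ w) ∧
    CertL q.2.2.1 q.2.2.2.1 q.2.2.2.2 ∧ defect q.2.2.1 ≤ q.1) ∧
  ∀ s ∈ words w q.2.1, q.1 ≤ defect (w ++ s) ∧ q.1 ≤ defect (w.reverse ++ s)

theorem prim_R : PrimrecRel R := by
  have hw : Primrec fun y : List ℕ × Q => y.1 := fst
  have hk : Primrec fun y : List ℕ × Q => y.2.1 := fst.comp snd
  have hn : Primrec fun y : List ℕ × Q => y.2.2.1 := fst.comp (snd.comp snd)
  have hX : Primrec fun y : List ℕ × Q => y.2.2.2.1 := fst.comp (snd.comp (snd.comp snd))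
  have hc : Primrec fun y : List ℕ × Q => y.2.2.2.2.1 :=
    fst.comp (snd.comp (snd.comp (snd.comp snd)))
  have hl : Primrec fun y : List ℕ × Q => y.2.2.2.2.2 :=
    snd.comp (snd.comp (snd.comp (snd.comp snd)))
  have h1 : PrimrecRel fun (s : List ℕ) (y : List ℕ × Q) =>
      y.2.1 ≤ defect (y.1 ++ s) ∧ y.2.1 ≤ defect (y.1.reverse ++ s) := by
    refine PrimrecPred.and ?_ ?_
    · exact nat_le.comp (hk.comp snd) (prim_defect.comp (list_append.comp (hw.comp snd) fst))
    · exact nat_le.comp (hk.comp snd)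
        (prim_defect.comp (list_append.comp (list_reverse.comp (hw.comp snd)) fst))
  refine PrimrecPred.and (PrimrecPred.and ?_ (PrimrecPred.and ?_ (PrimrecPred.and ?_ ?_))) ?_
  · exact PrimrecPred.or (prim_prefix.comp hw hX) (prim_prefix.comp (list_reverse.comp hw) hX)
  · exact (PrimrecRel.forall_mem_list prim_mem).comp hX hw
  · exact prim_Cert.comp (Primrec.pair hX (Primrec.pair hc hl))
  · exact nat_le.comp (prim_defect.comp hX) hk
  · exact (PrimrecRel.forall_mem_list h1).comp (prim_words.comp hw hn) .id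

theorem R.eq {w : List ℕ} {q : Q} (h : R w q) : infDefect w = q.1 := by
  obtain ⟨k, n, X, c, l⟩ := q
  obtain ⟨⟨h1, h2, h3, h4⟩, h5⟩ := h
  simp only at h1 h2 h3 h4 h5
  apply le_antisymm
  · apply infDefect_le_of_ext
    rcases h1 with h1 | h1
    · exact Or.inl (ext_iff.2 ⟨X, c, l, h1, h2, h3, h4⟩)
    · exact Or.inr (ext_iff.2 ⟨X, c, l, h1, fun a ha => List.mem_reverse.2 (h2 a ha), h3, h4⟩)
  · by_contra hcon
    push Not at hcon
    obtain ⟨m, hm⟩ : ∃ m : ℕ, infDefect w = m :=
      ⟨_, (ENat.natCast_toNat (ne_top_of_lt hcon)).symm⟩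
    rw [hm] at hcon
    have hmk : m < k := by exact_mod_cast hcon
    rcases ext_of_infDefect_le (le_of_eq hm) with h | h
    · obtain ⟨s, hs1, hs2, hs3⟩ := h n
      have := (h5 s (mem_words.2 ⟨hs1, hs2⟩)).1
      omega
    · obtain ⟨s, hs1, hs2, hs3⟩ := h n
      have := (h5 s (mem_words.2 ⟨hs1, fun a ha => List.mem_reverse.1 (hs2 a ha)⟩)).2
      omega

theorem exists_R {w : List ℕ} (hw : w ≠ []) : ∃ q, R w q := by
  classical
  have hex : ∃ k, Ext w k ∨ Ext w.reverse k := ⟨_, Or.inl (ext_length hw)⟩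
  set k := Nat.find hex with hk
  have hspec : Ext w k ∨ Ext w.reverse k := Nat.find_spec hex
  have hmin : ∀ m < k, ¬ (Ext w m ∨ Ext w.reverse m) := fun m hm => Nat.find_min hex hm
  have hlow : ∀ v : List ℕ, (∀ m < k, ¬ Ext v m) → (∀ a, a ∈ v ↔ a ∈ w) →
      ∃ n, ∀ s : List ℕ, n ≤ s.length → (∀ a ∈ s, a ∈ w) → k ≤ defect (v ++ s) := by
    intro v hv hvw
    rcases Nat.eq_zero_or_pos k with h0 | h0
    · exact ⟨0, fun s _ _ => by omega⟩
    · have h1 := hv (k - 1) (by omega)
      unfold Ext at h1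
      push Not at h1
      obtain ⟨n, hn⟩ := h1
      refine ⟨n, fun s hs hsw => ?_⟩
      have h2 := hn (s.take n) (by simp; omega)
        (fun a ha => (hvw a).2 (hsw a (List.mem_of_mem_take ha)))
      have h3 : defect (v ++ s.take n) ≤ defect (v ++ s) := by
        apply defect_prefix
        refine ⟨s.drop n, by simp⟩
      omega
  obtain ⟨n1, hn1⟩ := hlow w (fun m hm h => hmin m hm (Or.inl h)) (fun a => Iff.rfl)
  obtain ⟨n2, hn2⟩ := hlow w.reverse (fun m hm h => hmin m hm (Or.inr h))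
    (fun a => List.mem_reverse)
  have hcert : ∃ (X : List ℕ) (c l : ℕ), (w <+: X ∨ w.reverse <+: X) ∧ (∀ a ∈ X, a ∈ w) ∧
      CertL X c l ∧ defect X ≤ k := by
    rcases hspec with h | h
    · obtain ⟨X, c, l, h1, h2, h3, h4⟩ := ext_iff.1 h
      exact ⟨X, c, l, Or.inl h1, h2, h3, h4⟩
    · obtain ⟨X, c, l, h1, h2, h3, h4⟩ := ext_iff.1 h
      exact ⟨X, c, l, Or.inr h1, fun a ha => List.mem_reverse.1 (h2 a ha), h3, h4⟩
  obtain ⟨X, c, l, h1, h2, h3, h4⟩ := hcert
  refine ⟨(k, max n1 n2, X, c, l), ⟨h1, h2, h3, h4⟩, ?_⟩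
  intro s hs
  obtain ⟨hs1, hs2⟩ := mem_words.1 hs
  simp only at hs1
  exact ⟨hn1 s (by omega) hs2, hn2 s (by omega) hs2⟩

/-- decoding the search space -/
def dec (N : ℕ) : Q := (Encodable.decode N : Option Q).getD (0, 0, [], 0, 0)

theorem dec_encode (q : Q) : dec (Encodable.encode q) = q := by
  unfold dec
  rw [Encodable.encodek]
  rfl

theorem prim_dec : Primrec dec := Primrec.option_getD.comp Primrec.decode (const _)

/-- **The infinite defect is computable.** -/
theorem infDefect_computable :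
    ∃ f : List ℕ → ℕ, Computable f ∧ ∀ w, w ≠ [] → infDefect w = f w := by
  classical
  let T : List ℕ → ℕ → Prop := fun w N => w = [] ∨ R w (dec N)
  have hT : PrimrecRel T := by
    refine PrimrecPred.or ?_ ?_
    · exact Primrec.eq.comp fst (const [])
    · exact prim_R.comp fst (prim_dec.comp snd)
  have hex : ∀ w, ∃ N, T w N := by
    intro w
    by_cases hw : w = []
    · exact ⟨0, Or.inl hw⟩
    · obtain ⟨q, hq⟩ := exists_R hw
      exact ⟨Encodable.encode q, Or.inr (by rw [dec_encode]; exact hq)⟩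
  let F : List ℕ → ℕ := fun w => Nat.find (hex w)
  have hF : Computable F := by
    have h1 : Partrec fun w => Nat.rfind fun N => (Part.some (decide (T w N)) : Part Bool) := by
      refine Partrec.rfind ?_
      exact (Primrec.to_comp (hT.decide)).to₂.partrec₂
    refine h1.of_eq fun w => ?_
    refine Part.eq_some_iff.2 (Nat.mem_rfind.2 ⟨?_, ?_⟩)
    · have h2 : T w (F w) := Nat.find_spec (hex w)
      simpa using h2
    · intro m hm
      have h2 : ¬ T w m := Nat.find_min (hex w) hm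
      simpa using h2
  refine ⟨fun w => (dec (F w)).1, (fst.comp prim_dec).to_comp.comp hF, ?_⟩
  intro w hw
  rcases Nat.find_spec (hex w) with h | h
  · exact absurd h hw
  · exact h.eq

end Pool.Agent.X238.Dft
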