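import Mathlib

/-!
# Palindromes in (prefixes of) infinite words: the combinatorial core

All words are read off a function `g : ℕ → ℕ`; only an initial part matters.
-/

namespace Pool.Agent.X238.Dft

/-- The factor of `g` starting at `a` of length `l` is a palindrome. -/
def P (g : ℕ → ℕ) (a l : ℕ) : Prop := ∀ i < l, g (a + i) = g (a + l - 1 - i)

/-- The factors of length `l` starting at `a` and `b` agree. -/
def E (g : ℕ → ℕ) (a b l : ℕ) : Prop := ∀ i < l, g (a + i) = g (b + i)

/-- Some palindromic suffix of the prefix of length `n` has no earlier occurrence. -/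
def New (g : ℕ → ℕ) (n : ℕ) : Prop :=
  ∃ c < n, P g c (n - c) ∧ ∀ j < c, ¬ E g j c (n - c)

/-- The certificate. -/
def Cert (g : ℕ → ℕ) (c l L : ℕ) : Prop :=
  c + l < L ∧ P g c (L - c) ∧ P g c l ∧ (∀ j < L - l, j ≠ c → ¬ E g j c l) ∧
    (c = 0 ∨ g (c - 1) ≠ g (L - l - 1))

theorem E.symm {g : ℕ → ℕ} {a b l : ℕ} (h : E g a b l) : E g b a l := fun i hi => (h i hi).symm

theorem E.trans {g : ℕ → ℕ} {a b c l : ℕ} (h : E g a b l) (h' : E g b c l) : E g a c l :=
  fun i hi => (h i hi).trans (h' i hi)

/-- a palindromic suffix of a palindrome is also a prefix -/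
theorem P.border {g : ℕ → ℕ} {a l m : ℕ} (hm : m ≤ l) (h : P g a l) (h' : P g (a + l - m) m) :
    E g a (a + l - m) m := by
  intro i hi
  have h1 := h i (by omega)
  have h2 := h' i hi
  rw [h1, h2]
  congr 1
  omega

theorem E.pal {g : ℕ → ℕ} {a b l : ℕ} (h : E g a b l) (hp : P g a l) : P g b l := by
  intro i hi
  have h1 := h i hi
  have h2 := h (l - 1 - i) (by omega)
  have h3 := hp i hi
  have e1 : a + l - 1 - i = a + (l - 1 - i) := by omega
  have e2 : b + l - 1 - i = b + (l - 1 - i) := by omega
  rw [e2, ← h2, ← h1, h3, e1]

/-- centred factors of palindromes are palindromes -/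
theorem P.centre {g : ℕ → ℕ} {a l s : ℕ} (h : P g a l) (hs : 2 * s ≤ l) :
    P g (a + s) (l - 2 * s) := by
  intro i hi
  have h1 := h (s + i) (by omega)
  have e1 : a + (s + i) = a + s + i := by omega
  rw [e1] at h1
  rw [h1]
  congr 1
  omega

theorem P.congr {g g' : ℕ → ℕ} {a l : ℕ} (h : P g a l) (hg : ∀ i < a + l, g' i = g i) :
    P g' a l := by
  intro i hi
  rw [hg _ (by omega), hg _ (by omega)]
  exact h i hi

theorem E.congr {g g' : ℕ → ℕ} {a b l : ℕ} (h : E g a b l) (hg : ∀ i < a + l, g' i = g i)
    (hg' : ∀ i < b + l, g' i = g i) : E g' a b l := by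
  intro i hi
  rw [hg _ (by omega), hg' _ (by omega)]
  exact h i hi

theorem New.congr {g g' : ℕ → ℕ} {n : ℕ} (h : New g n) (hg : ∀ i < n, g' i = g i) :
    New g' n := by
  obtain ⟨c, hc, hp, hj⟩ := h
  refine ⟨c, hc, hp.congr fun i hi => hg i (by omega), fun j hjc he => hj j hjc ?_⟩
  exact he.congr (fun i hi => (hg i (by omega)).symm) (fun i hi => (hg i (by omega)).symm)

/-- The step: a certificate can be prolonged by one period. -/
theorem Cert.step {g : ℕ → ℕ} {c l L : ℕ} (h : Cert g c l L) :
    ∃ g' : ℕ → ℕ, (∀ i < L, g' i = g i) ∧ (∀ i < L + (L - l - c), ∃ j < L, g' i = g j) ∧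
      Cert g' c (L - c) (L + (L - l - c)) ∧
      ∀ m, L < m → m ≤ L + (L - l - c) → New g' m := by
  obtain ⟨hL, hQ, hv, hocc, hlast⟩ := h
  obtain ⟨p, hp⟩ : ∃ p, L = c + l + p := ⟨L - c - l, by omega⟩
  have hp0 : 0 < p := by omega
  have ep : L - l - c = p := by omega
  rw [ep]
  set g' : ℕ → ℕ := fun i => if i < L then g i else g (i - p) with hg'
  have hlow : ∀ i < L, g' i = g i := by
    intro i hi
    simp [hg', hi]
  have hhigh : ∀ i, L ≤ i → g' i = g (i - p) := by
    intro i hi
    have : ¬ i < L := by omega
    simp [hg', this]
  -- period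
  have hb : E g c (c + p) l := by
    have h1 : P g (c + (L - c) - l) l := by
      have : E g c (c + (L - c) - l) l := by
        intro i hi
        have a1 := hv i hi
        have a2 := hQ (l - 1 - i) (by omega)
        rw [a1]
        have e1 : c + l - 1 - i = c + (l - 1 - i) := by omega
        rw [e1, a2]
        congr 1
        omega
      exact this.pal hv
    have h2 := hQ.border (m := l) (by omega) h1
    have e : c + (L - c) - l = c + p := by omega
    rwa [e] at h2
  have hper : ∀ t, t + p < L - c → g (c + t) = g (c + t + p) := by
    intro t ht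
    have := hb t (by omega)
    rw [this]
    congr 1
    omega
  have hQ' : P g' c (L + p - c) := by
    intro i hi
    by_cases h1 : i < p
    · have e1 : g' (c + i) = g (c + i) := hlow _ (by omega)
      have e2 : g' (c + (L + p - c) - 1 - i) = g (c + (L + p - c) - 1 - i - p) :=
        hhigh _ (by omega)
      rw [e1, e2, hQ i (by omega)]
      congr 1
      omega
    · by_cases h2 : c + i < L
      · have e1 : g' (c + i) = g (c + i) := hlow _ (by omega)
        have e2 : g' (c + (L + p - c) - 1 - i) = g (c + (L + p - c) - 1 - i) :=
          hlow _ (by omega)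
        rw [e1, e2, hQ i (by omega)]
        have := hper (L - c - 1 - i) (by omega)
        have e3 : c + (L - c) - 1 - i = c + (L - c - 1 - i) := by omega
        rw [e3, this]
        congr 1
        omega
      · have e1 : g' (c + i) = g (c + i - p) := hhigh _ (by omega)
        have e2 : g' (c + (L + p - c) - 1 - i) = g (c + (L + p - c) - 1 - i) :=
          hlow _ (by omega)
        rw [e1, e2]
        have := hQ (i - p) (by omega)
        have e3 : c + i - p = c + (i - p) := by omega
        rw [e3, this]
        congr 1
        omega
  refine ⟨g', hlow, ?_, ⟨by omega, hQ', hQ.congr fun i hi => hlow i (by omega), ?_, ?_⟩, ?_⟩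
  · intro i hi
    by_cases h1 : i < L
    · exact ⟨i, h1, hlow i h1⟩
    · exact ⟨i - p, by omega, hhigh i (by omega)⟩
  · intro j hj hjc he
    refine hocc j (by omega) hjc ?_
    intro i hi
    have h1 := he i (by omega)
    rw [hlow _ (by omega), hlow _ (by omega)] at h1
    exact h1
  · rcases hlast with h0 | h0
    · exact Or.inl h0
    · right
      have e1 : g' (c - 1) = g (c - 1) := hlow _ (by omega)
      have e2 : g' (L + p - (L - c) - 1) = g (L - l - 1) := by
        rw [hlow _ (by omega)]
        congr 1
        omega
      rw [e1, e2]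
      exact h0
  · intro m hm1 hm2
    obtain ⟨s, hs⟩ : ∃ s, m = L + s := ⟨m - L, by omega⟩
    have hs1 : 1 ≤ s := by omega
    have hs2 : s ≤ p := by omega
    refine ⟨c + p - s, by omega, ?_, ?_⟩
    · have := hQ'.centre (s := p - s) (by omega)
      have e1 : c + (p - s) = c + p - s := by omega
      have e2 : L + p - c - 2 * (p - s) = m - (c + p - s) := by omega
      rwa [e1, e2] at this
    · intro j hj he
      have h1 : E g (j + s) c l := by
        intro i hi
        have h2 := he (s + i) (by omega)
        have e1 : g' (j + (s + i)) = g (j + s + i) := by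
          rw [hlow _ (by omega)]
          congr 1
          omega
        have e2 : g' (c + p - s + (s + i)) = g (c + p + i) := by
          rw [hlow _ (by omega)]
          congr 1
          omega
        rw [e1, e2] at h2
        rw [h2]
        exact (hb i hi).symm
      by_cases hjs : j + s = c
      · have h2 := he (s - 1) (by omega)
        have e1 : g' (j + (s - 1)) = g (c - 1) := by
          rw [hlow _ (by omega)]
          congr 1
          omega
        have e2 : g' (c + p - s + (s - 1)) = g (L - l - 1) := by
          rw [hlow _ (by omega)]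
          congr 1
          omega
        rw [e1, e2] at h2
        rcases hlast with h0 | h0
        · omega
        · exact h0 h2
      · exact hocc (j + s) (by omega) hjs h1

/-- two occurrences only -/
theorem two_occ {x : ℕ → ℕ} {c l L : ℕ} (hv : P x c l)
    (H2 : ∀ m, c + l < m → m < L → New x m)
    (H3 : ∀ j < c, ¬ E x j c l)
    (H4 : ∀ m, c + l < m → m < L → ¬ P x c (m - c)) :
    ∀ j, j < L - l → j ≠ c → ¬ E x j c l := by
  intro j
  induction j using Nat.strong_induction_on with
  | _ j ih =>
    intro hj hjc he
    rcases Nat.lt_or_gt_of_ne hjc with h | h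
    · exact H3 j h he
    · obtain ⟨a, ha, hpa, hna⟩ := H2 (j + l) (by omega) (by omega)
      by_cases hr : j ≤ a
      · -- the new palindrome is a suffix of the second occurrence
        refine hna (a - j + c) (by omega) ?_
        intro i hi
        have h1 := he (a - j + i) (by omega)
        have e1 : j + (a - j + i) = a + i := by omega
        have e2 : c + (a - j + i) = a - j + c + i := by omega
        rw [e1, e2] at h1
        exact h1.symm
      · have hPj : P x j l := he.symm.pal hv
        have h1 : E x a j l := by
          have h2 := hpa.border (m := l) (by omega) (by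
            have e : a + (j + l - a) - l = j := by omega
            rw [e]; exact hPj)
          have e : a + (j + l - a) - l = j := by omega
          rwa [e] at h2
        have h2 : E x a c l := h1.trans he
        rcases lt_trichotomy a c with h3 | h3 | h3
        · exact H3 a h3 h2
        · subst h3
          exact H4 (j + l) (by omega) (by omega) hpa
        · exact ih a (by omega) (by omega) (by omega) h2

/-- **Key lemma.** Every prefix of an infinite word whose long prefixes all bring a new palindrome
has a continuation carrying a certificate. -/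
theorem exists_cert {z : ℕ → ℕ} {N0 : ℕ} (hnew : ∀ n, N0 < n → New z n)
    (hlong : ∀ M, ∃ a l, M < l ∧ P z a l) (W : ℕ) :
    ∃ (x : ℕ → ℕ) (c l L n : ℕ), W ≤ n ∧ n ≤ L ∧ (∀ i < n, x i = z i) ∧
      (∀ i < L, ∃ j, x i = z j) ∧ Cert x c l L ∧ ∀ m, n < m → m ≤ L → New x m := by
  classical
  set M := max N0 W with hM
  have hMN : N0 ≤ M := le_max_left _ _
  have hMW : W ≤ M := le_max_right _ _
  have hex : ∃ a, ∃ l, M < l ∧ P z a l := hlong M
  set c := Nat.find hex with hc
  obtain ⟨l, hl, hv⟩ : ∃ l, M < l ∧ P z c l := Nat.find_spec hex
  have hmin : ∀ j < c, ∀ l', M < l' → ¬ P z j l' := by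
    intro j hj l' hl' hp
    exact Nat.find_min hex hj ⟨l', hl', hp⟩
  -- no palindrome around v
  have haround : c = 0 ∨ z (c - 1) ≠ z (c + l) := by
    by_cases h0 : c = 0
    · exact Or.inl h0
    · right
      intro heq
      refine hmin (c - 1) (by omega) (l + 2) (by omega) ?_
      intro i hi
      by_cases h1 : i = 0
      · subst h1
        have e1 : c - 1 + 0 = c - 1 := by omega
        have e2 : c - 1 + (l + 2) - 1 - 0 = c + l := by omega
        rw [e1, e2, heq]
      · by_cases h2 : i = l + 1
        · subst h2
          have e1 : c - 1 + (l + 1) = c + l := by omega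
          have e2 : c - 1 + (l + 2) - 1 - (l + 1) = c - 1 := by omega
          rw [e1, e2, heq]
        · have h3 := hv (i - 1) (by omega)
          have e1 : c - 1 + i = c + (i - 1) := by omega
          have e2 : c - 1 + (l + 2) - 1 - i = c + l - 1 - (i - 1) := by omega
          rw [e1, e2]
          exact h3
  by_cases hA : ∃ r, l < r ∧ P z c r
  · -- a longer palindrome starts at c
    set r := Nat.find hA with hr
    obtain ⟨hlr, hPr⟩ : l < r ∧ P z c r := Nat.find_spec hA
    have hminr : ∀ r' < r, ¬ (l < r' ∧ P z c r') := fun r' h => Nat.find_min hA h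
    refine ⟨z, c, l, c + r, c + r, by omega, le_refl _, fun _ _ => rfl, fun i _ => ⟨i, rfl⟩,
      ⟨by omega, ?_, hv, ?_, ?_⟩, fun m h1 h2 => by omega⟩
    · have e : c + r - c = r := by omega
      rw [e]; exact hPr
    · refine two_occ hv (fun m h1 _ => hnew m (by omega)) ?_ ?_
      · intro j hj he
        exact hmin j hj l hl (he.symm.pal hv)
      · intro m h1 h2 h3
        exact hminr (m - c) (by omega) ⟨by omega, h3⟩
    · rcases haround with h0 | h0
      · exact Or.inl h0
      · right
        have h1 := hPr l hlr
        have e : c + r - l - 1 = c + r - 1 - l := by omega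
        rw [e, ← h1]
        exact h0
  · -- v is the longest palindrome starting at c
    push Not at hA
    obtain ⟨n, hn⟩ : ∃ n, n = c + l + 1 + W := ⟨_, rfl⟩
    obtain ⟨c1, hc1, hp1, hn1⟩ := hnew n (by omega)
    have hcc : c < c1 := by
      rcases lt_trichotomy c1 c with h | h | h
      · exact absurd hp1 (hmin c1 h _ (by omega))
      · exfalso
        rw [h] at hp1
        exact hA (n - c) (by omega) hp1
      · exact h
    obtain ⟨L, hL⟩ : ∃ L, L = n + (c1 - c) := ⟨_, rfl⟩
    set x : ℕ → ℕ := fun i => if i < n then z i else z (c1 + n - 1 - i) with hx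
    have hlow : ∀ i < n, x i = z i := by
      intro i hi
      simp [hx, hi]
    have hhigh : ∀ i, n ≤ i → x i = z (c1 + n - 1 - i) := by
      intro i hi
      have : ¬ i < n := by omega
      simp [hx, this]
    have hQ : P x c (L - c) := by
      intro i hi
      by_cases h1 : c + i < c1
      · rw [hlow _ (by omega), hhigh _ (by omega)]
        congr 1
        omega
      · by_cases h2 : c + i < n
        · rw [hlow _ (by omega), hlow _ (by omega)]
          have h3 := hp1 (c + i - c1) (by omega)
          have e1 : c1 + (c + i - c1) = c + i := by omega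
          rw [e1] at h3
          rw [h3]
          congr 1
          omega
        · rw [hhigh _ (by omega), hlow _ (by omega)]
          congr 1
          omega
    have hvx : P x c l := hv.congr fun i hi => hlow i (by omega)
    -- new palindromes beyond n
    have hnewhigh : ∀ s, 1 ≤ s → s ≤ c1 - c →
        P x (c1 - s) (n + s - (c1 - s)) ∧ ∀ j < c1 - s, ¬ E x j (c1 - s) (n + s - (c1 - s)) := by
      intro s hs1 hs2
      constructor
      · have := hQ.centre (s := c1 - c - s) (by omega)
        have e1 : c + (c1 - c - s) = c1 - s := by omega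
        have e2 : L - c - 2 * (c1 - c - s) = n + s - (c1 - s) := by omega
        rwa [e1, e2] at this
      · intro j hj he
        refine hn1 (j + s) (by omega) ?_
        intro i hi
        have h2 := he (s + i) (by omega)
        rw [hlow _ (by omega), hlow _ (by omega)] at h2
        have e1 : j + (s + i) = j + s + i := by omega
        have e2 : c1 - s + (s + i) = c1 + i := by omega
        rw [e1, e2] at h2
        exact h2
    have hN2 : ∀ m, n < m → m ≤ L → New x m := by
      intro m h1 h2
      obtain ⟨ha, hb⟩ := hnewhigh (m - n) (by omega) (by omega)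
      have e : n + (m - n) = m := by omega
      rw [e] at ha hb
      exact ⟨c1 - (m - n), by omega, ha, hb⟩
    refine ⟨x, c, l, L, n, by omega, by omega, hlow, ?_, ⟨by omega, hQ, hvx, ?_, ?_⟩, hN2⟩
    · intro i _
      by_cases h1 : i < n
      · exact ⟨_, hlow i h1⟩
      · exact ⟨_, hhigh i (by omega)⟩
    · refine two_occ hvx ?_ ?_ ?_
      · intro m h1 h2
        by_cases h3 : m ≤ n
        · exact (hnew m (by omega)).congr fun i hi => hlow i (by omega)
        · exact hN2 m (by omega) (by omega)
      · intro j hj he
        refine hmin j hj l hl ?_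
        have h1 : E z j c l := he.congr (fun i hi => (hlow i (by omega)).symm)
          (fun i hi => (hlow i (by omega)).symm)
        exact h1.symm.pal hv
      · intro m h1 h2 h3
        by_cases h4 : m ≤ n
        · exact hA (m - c) (by omega) (h3.congr fun i hi => (hlow i (by omega)).symm)
        · obtain ⟨ha, hb⟩ := hnewhigh (m - n) (by omega) (by omega)
          have e : n + (m - n) = m := by omega
          rw [e] at ha hb
          refine hb c (by omega) ?_
          have h5 := h3.border (m := m - (c1 - (m - n))) (by omega) (by
            have e : c + (m - c) - (m - (c1 - (m - n))) = c1 - (m - n) := by omega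
            rw [e]; exact ha)
          have e : c + (m - c) - (m - (c1 - (m - n))) = c1 - (m - n) := by omega
          rwa [e] at h5
    · rcases haround with h0 | h0
      · exact Or.inl h0
      · right
        have h1 := hQ l (by omega)
        have e : c + (L - c) - 1 - l = L - l - 1 := by omega
        rw [e] at h1
        rw [← h1, hlow _ (by omega), hlow _ (by omega)]
        exact h0

end Pool.Agent.X238.Dft
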