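import Pool.Agent.X238.Dft.Words

/-!
# The infinite defect of a finite word
-/

namespace Pool.Agent.X238.Dft

/-- Infinite words over `ℕ`: right-infinite words `z 0, z 1, z 2, …`, left-infinite words
`…, z 2, z 1, z 0` and two-way infinite words `…, z (-1), z 0, z 1, …`. -/
inductive InfWord : Type
  | right (z : ℕ → ℕ) : InfWord
  | left (z : ℕ → ℕ) : InfWord
  | twoWay (z : ℤ → ℕ) : InfWord

/-- `u` is a finite factor of the infinite word. -/
def InfWord.HasFactor : InfWord → List ℕ → Prop
  | .right z, u => ∃ i : ℕ, ∀ (k : ℕ) (h : k < u.length), u[k] = z (i + k)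
  | .left z, u => ∃ i : ℕ, ∀ (k : ℕ) (h : k < u.length), u[k] = z (i + (u.length - 1 - k))
  | .twoWay z, u => ∃ i : ℤ, ∀ (k : ℕ) (h : k < u.length), u[k] = z (i + k)

/-- The defect of an infinite word: the supremum of the defects of its finite factors. -/
noncomputable def InfWord.defect (z : InfWord) : ℕ∞ :=
  ⨆ u : List ℕ, ⨆ _ : z.HasFactor u, (Dft.defect u : ℕ∞)

/-- The infinite defect of a finite word `w`: the least defect of an infinite word which has `w`
as a factor and uses only letters of `w`. -/
noncomputable def infDefect (w : List ℕ) : ℕ∞ :=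
  ⨅ z : InfWord, ⨅ _ : z.HasFactor w ∧ ∀ a, z.HasFactor [a] → a ∈ w, z.defect

/-- prefixes of a right-infinite word -/
def pre (z : ℕ → ℕ) (n : ℕ) : List ℕ := (List.range n).map z

theorem pre_length (z : ℕ → ℕ) (n : ℕ) : (pre z n).length = n := by simp [pre]

theorem gl_pre {z : ℕ → ℕ} {n i : ℕ} (h : i < n) : gl (pre z n) i = z i := by
  rw [gl_lt (by simpa [pre] using h)]
  simp [pre]

theorem defect_pre (z : ℕ → ℕ) (n : ℕ) : Dft.defect (pre z n) = dc z n := by
  rw [defect_eq, pre_length]
  exact dc_congr fun i hi => gl_pre hi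

theorem defect_le_of_factor {z : ℕ → ℕ} {k : ℕ} (h : ∀ n, dc z n ≤ k) {u : List ℕ} {i : ℕ}
    (hu : ∀ (j : ℕ) (hj : j < u.length), u[j] = z (i + j)) : Dft.defect u ≤ k := by
  have e : u = (pre z (i + u.length)).drop i := by
    apply List.ext_getElem
    · simp [pre_length]
    · intro j h1 h2
      rw [hu j h1]
      simp [pre]
  have h1 : Dft.defect u ≤ Dft.defect (pre z (i + u.length)) := by
    conv_lhs => rw [e]
    exact defect_suffix (List.drop_suffix _ _)
  rw [defect_pre] at h1
  exact h1.trans (h _)

/-- `w` has arbitrarily long right prolongations of defect at most `k`. -/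
def Ext (w : List ℕ) (k : ℕ) : Prop :=
  ∀ n, ∃ s : List ℕ, s.length = n ∧ (∀ a ∈ s, a ∈ w) ∧ Dft.defect (w ++ s) ≤ k

/-- Kőnig's lemma. -/
theorem Ext.exists_word {w : List ℕ} {k : ℕ} (h : Ext w k) :
    ∃ z : ℕ → ℕ, (∀ (i : ℕ) (hi : i < w.length), z i = w[i]) ∧ (∀ i, z i ∈ w) ∧
      ∀ n, dc z n ≤ k := by
  classical
  let Good : List ℕ → Prop := fun s => (∀ a ∈ s, a ∈ w) ∧
    ∀ n, ∃ t : List ℕ, t.length = n ∧ (∀ a ∈ t, a ∈ w) ∧ Dft.defect (w ++ s ++ t) ≤ k
  have h0 : Good [] := ⟨by simp, fun n => by simpa using h n⟩
  have hstep : ∀ s, Good s → ∃ a, a ∈ w ∧ Good (s ++ [a]) := by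
    intro s hs
    by_contra hcon
    push Not at hcon
    have h1 : ∀ a, ∃ n, a ∈ w → ∀ t : List ℕ, t.length = n → (∀ b ∈ t, b ∈ w) →
        ¬ Dft.defect (w ++ (s ++ [a]) ++ t) ≤ k := by
      intro a
      by_cases ha : a ∈ w
      · have h2 := hcon a ha
        simp only [Good, not_and, not_forall] at h2
        obtain ⟨n, hn⟩ := h2 (by
          intro b hb
          rcases List.mem_append.1 hb with h3 | h3
          · exact hs.1 b h3
          · rw [List.mem_singleton] at h3
            rw [h3]; exact ha)
        refine ⟨n, fun _ t ht htw hd => hn ⟨t, ht, htw, hd⟩⟩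
      · exact ⟨0, fun h => absurd h ha⟩
    choose nn hnn using h1
    obtain ⟨t, ht1, ht2, ht3⟩ := hs.2 (w.toFinset.sup nn + 1)
    rcases t with _ | ⟨a, t⟩
    · simp at ht1
    · have ha : a ∈ w := ht2 a (by simp)
      have hle : nn a ≤ w.toFinset.sup nn := Finset.le_sup (f := nn) (by simpa using ha)
      refine hnn a ha (t.take (nn a)) (by simp at ht1 ⊢; omega) ?_ ?_
      · intro b hb
        exact ht2 b (List.mem_cons_of_mem _ (List.mem_of_mem_take hb))
      · refine le_trans (defect_prefix ?_) ht3
        refine ⟨t.drop (nn a), ?_⟩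
        simp [List.append_assoc]
  choose! nx hnx1 hnx2 using hstep
  let S : ℕ → List ℕ := fun n => Nat.rec [] (fun _ s => s ++ [nx s]) n
  have hS0 : S 0 = [] := rfl
  have hS1 : ∀ n, S (n + 1) = S n ++ [nx (S n)] := fun n => rfl
  have hgood : ∀ n, Good (S n) := by
    intro n
    induction n with
    | zero => exact h0
    | succ n ih => rw [hS1]; exact hnx2 _ ih
  have hlen : ∀ n, (S n).length = n := by
    intro n
    induction n with
    | zero => rfl
    | succ n ih => rw [hS1]; simp [ih]
  have hagree : ∀ n m i, n ≤ m → i < w.length + n → gl (w ++ S m) i = gl (w ++ S n) i := by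
    intro n m i hnm hi
    induction m, hnm using Nat.le_induction with
    | base => rfl
    | succ m hm ih =>
      rw [← ih, hS1, ← List.append_assoc]
      apply gl_append
      simp [hlen]
      omega
  refine ⟨fun i => gl (w ++ S (i + 1)) i, ?_, ?_, ?_⟩
  · intro i hi
    show gl (w ++ S (i + 1)) i = w[i]
    rw [gl_append hi, gl_lt hi]
  · intro i
    show gl (w ++ S (i + 1)) i ∈ w
    have hl : i < (w ++ S (i + 1)).length := by simp [hlen]; omega
    rw [gl_lt hl]
    rcases List.mem_append.1 (List.getElem_mem hl) with h3 | h3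
    · exact h3
    · exact (hgood (i + 1)).1 _ h3
  · intro n
    have e : dc (fun i => gl (w ++ S (i + 1)) i) n = dc (gl (w ++ S n)) n := by
      apply dc_congr
      intro i hi
      show gl (w ++ S (i + 1)) i = gl (w ++ S n) i
      exact (hagree (i + 1) n i (by omega) (by omega)).symm
    rw [e]
    obtain ⟨t, ht1, _, ht3⟩ := (hgood n).2 0
    rw [List.length_eq_zero_iff] at ht1
    rw [ht1, List.append_nil, defect_eq] at ht3
    exact (dc_mono _ (by simp [hlen])).trans ht3

theorem infDefect_le_of_ext {w : List ℕ} {k : ℕ} (h : Ext w k ∨ Ext w.reverse k) :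
    infDefect w ≤ k := by
  rcases h with h | h
  · obtain ⟨z, hz1, hz2, hz3⟩ := h.exists_word
    refine iInf_le_of_le (InfWord.right z) (iInf_le_of_le ⟨⟨0, ?_⟩, ?_⟩ ?_)
    · intro j hj
      rw [← hz1 j hj]
      simp
    · rintro a ⟨i, hi⟩
      have := hi 0 (by simp)
      simp at this
      rw [this]
      exact hz2 _
    · refine iSup_le fun u => iSup_le fun hu => ?_
      obtain ⟨i, hi⟩ := hu
      exact_mod_cast defect_le_of_factor hz3 hi
  · obtain ⟨z, hz1, hz2, hz3⟩ := h.exists_word
    refine iInf_le_of_le (InfWord.left z) (iInf_le_of_le ⟨⟨0, ?_⟩, ?_⟩ ?_)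
    · intro j hj
      have h1 := hz1 (w.length - 1 - j) (by simp; omega)
      rw [zero_add, h1, List.getElem_reverse]
      congr 1
      omega
    · rintro a ⟨i, hi⟩
      have := hi 0 (by simp)
      simp at this
      rw [this]
      exact List.mem_reverse.1 (hz2 _)
    · refine iSup_le fun u => iSup_le fun hu => ?_
      obtain ⟨i, hi⟩ := hu
      rw [← defect_reverse u]
      have : Dft.defect u.reverse ≤ k := by
        refine defect_le_of_factor hz3 (i := i) ?_
        intro j hj
        rw [List.getElem_reverse]
        have hj' : j < u.length := by simpa using hj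
        rw [hi (u.length - 1 - j) (by omega)]
        congr 2
        omega
      exact_mod_cast this

theorem ext_of_infDefect_le {w : List ℕ} {k : ℕ} (h : infDefect w ≤ k) :
    Ext w k ∨ Ext w.reverse k := by
  have h1 : infDefect w < ((k + 1 : ℕ) : ℕ∞) :=
    lt_of_le_of_lt h (by exact_mod_cast Nat.lt_succ_self k)
  unfold infDefect at h1
  rw [iInf_lt_iff] at h1
  obtain ⟨z, h1⟩ := h1
  rw [iInf_lt_iff] at h1
  obtain ⟨⟨hw, hletters⟩, h1⟩ := h1
  have hfac : ∀ u, z.HasFactor u → Dft.defect u ≤ k := by
    intro u hu
    have h2 : (Dft.defect u : ℕ∞) ≤ z.defect :=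
      le_iSup_of_le u (le_iSup_of_le hu le_rfl)
    have h3 : (Dft.defect u : ℕ∞) < ((k + 1 : ℕ) : ℕ∞) := lt_of_le_of_lt h2 h1
    have h4 : Dft.defect u < k + 1 := by exact_mod_cast h3
    omega
  cases z with
  | right z =>
    left
    intro n
    obtain ⟨i, hi⟩ := hw
    refine ⟨(List.range n).map fun t => z (i + w.length + t), by simp, ?_, ?_⟩
    · intro a ha
      obtain ⟨t, _, rfl⟩ := List.mem_map.1 ha
      refine hletters _ ⟨i + w.length + t, ?_⟩
      intro k hk
      have : k = 0 := by simpa using hk
      subst this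
      simp
    · apply hfac
      refine ⟨i, fun j hj => ?_⟩
      by_cases hjw : j < w.length
      · rw [List.getElem_append_left hjw]
        exact hi j hjw
      · rw [List.getElem_append_right (by omega)]
        simp only [List.getElem_map, List.getElem_range]
        congr 1
        omega
  | left z =>
    right
    intro n
    obtain ⟨i, hi⟩ := hw
    refine ⟨(List.range n).map fun t => z (i + w.length + t), by simp, ?_, ?_⟩
    · intro a ha
      obtain ⟨t, _, rfl⟩ := List.mem_map.1 ha
      refine List.mem_reverse.2 (hletters _ ⟨i + w.length + t, ?_⟩)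
      intro k hk
      have : k = 0 := by simpa using hk
      subst this
      simp
    · rw [← defect_reverse]
      apply hfac
      refine ⟨i, fun j hj => ?_⟩
      simp only [List.length_reverse, List.length_append, List.length_map,
        List.length_range] at hj
      rw [List.getElem_reverse]
      simp only [List.length_reverse, List.length_append, List.length_map, List.length_range]
      by_cases hjw : w.length + n - 1 - j < w.length
      · rw [List.getElem_append_left (by simpa using hjw), List.getElem_reverse]
        rw [hi _ (by omega)]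
        congr 1
        omega
      · rw [List.getElem_append_right (by simp; omega)]
        simp only [List.getElem_map, List.getElem_range, List.length_reverse]
        congr 1
        omega
  | twoWay z =>
    left
    intro n
    obtain ⟨i, hi⟩ := hw
    refine ⟨(List.range n).map fun t : ℕ => z (i + w.length + t), by simp, ?_, ?_⟩
    · intro a ha
      obtain ⟨t, _, rfl⟩ := List.mem_map.1 ha
      refine hletters _ ⟨i + w.length + t, ?_⟩
      intro k hk
      have : k = 0 := by simpa using hk
      subst this
      simp
    · apply hfac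
      refine ⟨i, fun j hj => ?_⟩
      by_cases hjw : j < w.length
      · rw [List.getElem_append_left hjw]
        exact hi j hjw
      · rw [List.getElem_append_right (by omega)]
        simp only [List.getElem_map, List.getElem_range]
        congr 1
        omega

/-- all words of length `n` over the letters of `w` -/
def words (w : List ℕ) : ℕ → List (List ℕ)
  | 0 => [[]]
  | n + 1 => (words w n).flatMap fun s => w.map fun a => a :: s

theorem mem_words {w : List ℕ} {n : ℕ} {s : List ℕ} :
    s ∈ words w n ↔ s.length = n ∧ ∀ a ∈ s, a ∈ w := by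
  induction n generalizing s with
  | zero =>
    simp only [words, List.mem_singleton, List.length_eq_zero_iff]
    constructor
    · rintro rfl; simp
    · exact fun h => h.1
  | succ n ih =>
    simp only [words, List.mem_flatMap, List.mem_map]
    constructor
    · rintro ⟨t, ht, a, ha, rfl⟩
      obtain ⟨h1, h2⟩ := ih.1 ht
      refine ⟨by simp [h1], ?_⟩
      intro b hb
      rcases List.mem_cons.1 hb with rfl | hb
      · exact ha
      · exact h2 b hb
    · rintro ⟨h1, h2⟩
      rcases s with _ | ⟨a, s⟩
      · simp at h1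
      · refine ⟨s, ih.2 ⟨by simpa using h1, fun b hb => h2 b (List.mem_cons_of_mem _ hb)⟩, a,
          h2 a (by simp), rfl⟩

theorem exists_bound_new {z : ℕ → ℕ} {k : ℕ} (h : ∀ n, dc z n ≤ k) :
    ∃ N0, ∀ n, N0 < n → New z n := by
  classical
  have hex : ∃ v, ∀ n, dc z n ≤ v := ⟨k, h⟩
  set v := Nat.find hex with hv
  have hvs : ∀ n, dc z n ≤ v := Nat.find_spec hex
  have hatt : ∃ N, dc z N = v := by
    by_contra hcon
    push Not at hcon
    have h0 : v ≠ 0 := by
      intro h0
      have h1 := hvs 0
      have h2 := hcon 0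
      omega
    refine Nat.find_min hex (m := v - 1) (by omega) fun n => ?_
    have h1 := hvs n
    have h2 := hcon n
    omega
  obtain ⟨N, hN⟩ := hatt
  refine ⟨N, fun n hn => ?_⟩
  obtain ⟨m, rfl⟩ : ∃ m, n = m + 1 := ⟨n - 1, by omega⟩
  rcases dc_succ z m with ⟨h1, _⟩ | ⟨_, h2⟩
  · exact h1
  · have h3 := dc_mono z (show N ≤ m by omega)
    have h4 := hvs (m + 1)
    omega

theorem exists_long {z : ℕ → ℕ} {w : List ℕ} {k : ℕ} (h : ∀ n, dc z n ≤ k)
    (hz : ∀ i, z i ∈ w) (M : ℕ) : ∃ a l, M < l ∧ P z a l := by
  by_contra hcon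
  push Not at hcon
  have hfin : ((((List.range (M + 1)).flatMap (words w))).toFinset : Set (List ℕ)).Finite :=
    Finset.finite_toSet _
  have hsub : ∀ n, palFactors (pre z n) ⊆
      ((((List.range (M + 1)).flatMap (words w))).toFinset : Set (List ℕ)) := by
    intro n u hu
    obtain ⟨⟨s, t, hst⟩, hr⟩ := hu
    have hlen : s.length + u.length + t.length = n := by
      have := congrArg List.length hst
      simp [pre_length] at this
      omega
    have hget : ∀ (j : ℕ) (hj : j < u.length), u[j] = z (s.length + j) := by
      intro j hj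
      have h1 : (s ++ u ++ t)[s.length + j]'(by simp; omega) = u[j] := by
        rw [List.getElem_append_left (by simp; omega), List.getElem_append_right (by omega)]
        simp
      rw [← h1]
      simp only [hst]
      simp [pre]
    have hP : P z s.length u.length := by
      intro i hi
      rw [← hget i hi]
      have h1 : u[i] = u.reverse[i]'(by simpa using hi) := by simp only [hr]
      rw [h1, List.getElem_reverse, hget _ (by omega)]
      congr 1
      omega
    have hle : u.length ≤ M := by
      by_contra hlt
      exact hcon _ _ (by omega) hP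
    simp only [List.coe_toFinset, Set.mem_ofPred_eq, List.mem_flatMap, List.mem_range]
    refine ⟨u.length, by omega, mem_words.2 ⟨rfl, ?_⟩⟩
    intro a ha
    obtain ⟨j, hj, rfl⟩ := List.getElem_of_mem ha
    rw [hget j hj]
    exact hz _
  have hcard : ∀ n, n + 1 ≤ (((List.range (M + 1)).flatMap (words w))).toFinset.card + k := by
    intro n
    have h1 := ncard_add_dc (pre z n)
    rw [← defect_eq, defect_pre, pre_length] at h1
    have h2 := Set.ncard_le_ncard (hsub n) hfin
    rw [Set.ncard_coe_finset] at h2
    have h3 := h n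
    omega
  have := hcard ((((List.range (M + 1)).flatMap (words w))).toFinset.card + k)
  omega

/-- certificates as lists -/
def CertL (X : List ℕ) (c l : ℕ) : Prop := Cert (gl X) c l X.length

theorem Cert.congr {g g' : ℕ → ℕ} {c l L : ℕ} (h : Cert g c l L) (hg : ∀ i < L, g' i = g i) :
    Cert g' c l L := by
  obtain ⟨h1, h2, h3, h4, h5⟩ := h
  refine ⟨h1, h2.congr fun i hi => hg i (by omega), h3.congr fun i hi => hg i (by omega), ?_, ?_⟩
  · intro j hj hjc he
    exact h4 j hj hjc (he.congr (fun i hi => (hg i (by omega)).symm)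
      (fun i hi => (hg i (by omega)).symm))
  · rcases h5 with h5 | h5
    · exact Or.inl h5
    · right
      rw [hg _ (by omega), hg _ (by omega)]
      exact h5

theorem dc_const {g : ℕ → ℕ} {n L : ℕ} (hnL : n ≤ L) (h : ∀ m, n < m → m ≤ L → New g m) :
    dc g L = dc g n := by
  induction L, hnL using Nat.le_induction with
  | base => rfl
  | succ m hm ih =>
    rcases dc_succ g m with ⟨_, h2⟩ | ⟨h2, _⟩
    · rw [h2]
      exact ih fun m' h3 h4 => h m' h3 (by omega)
    · exact absurd (h (m + 1) (by omega) le_rfl) h2

/-- **Certificates for the infinite defect.** -/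
theorem ext_iff {w : List ℕ} {k : ℕ} :
    Ext w k ↔ ∃ (X : List ℕ) (c l : ℕ), w <+: X ∧ (∀ a ∈ X, a ∈ w) ∧ CertL X c l ∧
      Dft.defect X ≤ k := by
  constructor
  · intro h
    obtain ⟨z, hz1, hz2, hz3⟩ := h.exists_word
    obtain ⟨N0, hN0⟩ := exists_bound_new hz3
    obtain ⟨x, c, l, L, n, h1, h2, h3, h4, h5, h6⟩ :=
      exists_cert hN0 (exists_long hz3 hz2) w.length
    refine ⟨pre x L, c, l, ?_, ?_, ?_, ?_⟩
    · have e : w = (pre x L).take w.length := by
        apply List.ext_getElem
        · simp [pre_length]; omega
        · intro j hj1 hj2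
          simp only [pre, List.getElem_take, List.getElem_map, List.getElem_range]
          rw [h3 j (by omega), hz1 j hj1]
      rw [e]
      exact List.take_prefix _ _
    · intro a ha
      obtain ⟨i, hi, rfl⟩ := List.mem_map.1 ha
      obtain ⟨j, hj⟩ := h4 i (List.mem_range.1 hi)
      rw [hj]
      exact hz2 _
    · unfold CertL
      rw [pre_length]
      exact h5.congr fun i hi => gl_pre hi
    · rw [defect_pre, dc_const h2 h6, dc_congr h3]
      exact hz3 _
  · rintro ⟨X, c, l, hw, hX, hc, hd⟩ n
    have key : ∀ m, ∃ (Y : List ℕ) (c l : ℕ), w <+: Y ∧ w.length + m ≤ Y.length ∧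
        (∀ a ∈ Y, a ∈ w) ∧ CertL Y c l ∧ Dft.defect Y ≤ k := by
      intro m
      induction m with
      | zero => exact ⟨X, c, l, hw, by simpa using hw.length_le, hX, hc, hd⟩
      | succ m ih =>
        obtain ⟨Y, c, l, h1, h2, h3, h4, h5⟩ := ih
        obtain ⟨g', a1, a2, a3, a4⟩ := Cert.step h4
        have h4' : c + l < Y.length := h4.1
        have hpre : Y <+: pre g' (Y.length + (Y.length - l - c)) := by
          have e : Y = (pre g' (Y.length + (Y.length - l - c))).take Y.length := by
            apply List.ext_getElem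
            · simp [pre_length]
            · intro j hj1 hj2
              simp only [pre, List.getElem_take, List.getElem_map, List.getElem_range]
              rw [a1 j hj1, gl_lt hj1]
          conv_lhs => rw [e]
          exact List.take_prefix _ _
        refine ⟨pre g' (Y.length + (Y.length - l - c)), c, Y.length - c, h1.trans hpre, ?_, ?_,
          ?_, ?_⟩
        · rw [pre_length]; omega
        · intro a ha
          obtain ⟨i, hi, rfl⟩ := List.mem_map.1 ha
          obtain ⟨j, hj, hj'⟩ := a2 i (List.mem_range.1 hi)
          rw [hj', gl_lt hj]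
          exact h3 _ (List.getElem_mem hj)
        · unfold CertL
          rw [pre_length]
          exact a3.congr fun i hi => gl_pre hi
        · rw [defect_pre, dc_const (Nat.le_add_right _ _) a4, dc_congr a1, ← defect_eq]
          exact h5
    obtain ⟨Y, c', l', h1, h2, h3, _, h5⟩ := key n
    obtain ⟨t, rfl⟩ := h1
    refine ⟨t.take n, by simp at h2 ⊢; omega, ?_, ?_⟩
    · intro a ha
      exact h3 a (List.mem_append_right _ (List.mem_of_mem_take ha))
    · refine (defect_prefix ?_).trans h5
      refine ⟨t.drop n, by simp⟩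

theorem ext_length {w : List ℕ} (hw : w ≠ []) : Ext w w.length := by
  intro n
  obtain ⟨a, ha⟩ := List.exists_mem_of_ne_nil w hw
  refine ⟨List.replicate n a, by simp, ?_, ?_⟩
  · intro b hb
    rw [List.eq_of_mem_replicate hb]
    exact ha
  · have hsub : (((Finset.range (n + 1)).image fun i => List.replicate i a :
        Finset (List ℕ)) : Set (List ℕ)) ⊆ palFactors (w ++ List.replicate n a) := by
      intro u hu
      simp only [Finset.coe_image, Set.mem_image, Finset.coe_range, Set.mem_Iio] at hu
      obtain ⟨i, hi, rfl⟩ := hu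
      refine ⟨?_, by simp⟩
      refine ⟨w, List.replicate (n - i) a, ?_⟩
      rw [List.append_assoc, ← List.replicate_add]
      congr 2
      omega
    have h1 := Set.ncard_le_ncard hsub (palFactors_finite _)
    rw [Set.ncard_coe_finset, Finset.card_image_of_injective, Finset.card_range] at h1
    · unfold Dft.defect
      simp only [List.length_append, List.length_replicate]
      omega
    · intro i j hij
      have := congrArg List.length hij
      simpa using this

end Pool.Agent.X238.Dft
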