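import Pool.Agent.X238.Dft.Core

/-!
# The defect of a finite word counts the prefixes bringing no new palindrome
-/

namespace Pool.Agent.X238.Dft

/-- The palindromic factors (contiguous subwords) of a finite word, the empty word included. -/
def palFactors (w : List ℕ) : Set (List ℕ) := {u | u <:+: w ∧ u.reverse = u}

/-- The defect of a finite word `w`: the number `|w| + 1 - |Pal(w)|`. -/
noncomputable def defect (w : List ℕ) : ℕ := w.length + 1 - (palFactors w).ncard

/-- reading a list as a function -/
def gl (w : List ℕ) : ℕ → ℕ := fun i => w.getD i 0

open Classical in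
/-- number of prefixes (of length `1..n`) bringing no new palindrome -/
noncomputable def dc (g : ℕ → ℕ) (n : ℕ) : ℕ :=
  ((Finset.range n).filter fun m => ¬ New g (m + 1)).card

theorem gl_lt {w : List ℕ} {i : ℕ} (h : i < w.length) : gl w i = w[i] := by
  simp [gl, List.getD_eq_getElem?_getD, h]

theorem gl_append {w s : List ℕ} {i : ℕ} (h : i < w.length) : gl (w ++ s) i = gl w i := by
  rw [gl_lt h, gl_lt (by simp; omega)]
  simp [h]

theorem P_iff (x : List ℕ) {a l : ℕ} (h : a + l ≤ x.length) :
    P (gl x) a l ↔ ((x.drop a).take l).reverse = (x.drop a).take l := by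
  constructor
  · intro hp
    apply List.ext_getElem (by simp)
    intro i h1 h2
    have hi : i < l := by
      simp at h2; omega
    have hlen : ((x.drop a).take l).length = l := by simp; omega
    rw [List.getElem_reverse]
    simp only [List.getElem_take, List.getElem_drop, hlen]
    have := hp i hi
    rw [gl_lt (by omega), gl_lt (by omega)] at this
    rw [this]
    congr 1
    omega
  · intro hr i hi
    have hlen : ((x.drop a).take l).length = l := by simp; omega
    have h1 : ((x.drop a).take l).reverse[i]'(by simp; omega) = ((x.drop a).take l)[i]'(by omega) := by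
      simp only [hr]
    rw [List.getElem_reverse] at h1
    simp only [List.getElem_take, List.getElem_drop, hlen] at h1
    rw [gl_lt (by omega), gl_lt (by omega), ← h1]
    congr 1
    omega

theorem E_iff (x : List ℕ) {a b l : ℕ} (ha : a + l ≤ x.length) (hb : b + l ≤ x.length) :
    E (gl x) a b l ↔ (x.drop a).take l = (x.drop b).take l := by
  constructor
  · intro he
    apply List.ext_getElem (by simp; omega)
    intro i h1 h2
    have hi : i < l := by simp at h1; omega
    have := he i hi
    rw [gl_lt (by omega), gl_lt (by omega)] at this
    simpa [List.getElem_take, List.getElem_drop] using this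
  · intro h i hi
    have h1 : ((x.drop a).take l)[i]'(by simp; omega) = ((x.drop b).take l)[i]'(by simp; omega) := by
      simp only [h]
    simp only [List.getElem_take, List.getElem_drop] at h1
    rw [gl_lt (by omega), gl_lt (by omega)]
    exact h1

theorem new_iff (w : List ℕ) (a : ℕ) :
    New (gl (w ++ [a])) (w.length + 1) ↔
      ∃ u : List ℕ, u <:+ w ++ [a] ∧ u.reverse = u ∧ ¬ u <:+: w := by
  set x := w ++ [a] with hx
  have hxl : x.length = w.length + 1 := by simp [hx]
  constructor
  · rintro ⟨c, hc, hp, hj⟩
    refine ⟨x.drop c, List.drop_suffix _ _, ?_, ?_⟩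
    · rw [P_iff x (by omega)] at hp
      have e : (x.drop c).take (w.length + 1 - c) = x.drop c := by
        apply List.take_of_length_le
        simp; omega
      rwa [e] at hp
    · rintro ⟨s, t, hst⟩
      have hl : s.length + (w.length + 1 - c) + t.length = w.length := by
        have := congrArg List.length hst
        simp at this
        omega
      refine hj s.length (by omega) ?_
      rw [E_iff x (by omega) (by omega)]
      have e : (x.drop c).take (w.length + 1 - c) = x.drop c := by
        apply List.take_of_length_le
        simp; omega
      rw [e]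
      have e2 : x = s ++ (x.drop c ++ (t ++ [a])) := by
        conv_lhs => rw [hx, ← hst]
        simp
      have e3 : x.drop s.length = x.drop c ++ (t ++ [a]) := by
        conv_lhs => rw [e2]
        simp
      rw [e3]
      have e4 : w.length + 1 - c = (x.drop c).length := by simp; omega
      rw [e4]
      simp
  · rintro ⟨u, ⟨s, hs⟩, hr, hn⟩
    have hu : u ≠ [] := by
      rintro rfl
      exact hn (List.nil_infix)
    have hl : s.length + u.length = w.length + 1 := by
      have := congrArg List.length hs
      simp at this
      omega
    have hul : 0 < u.length := List.length_pos_iff.2 hu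
    have ed : x.drop s.length = u := by
      rw [← hs]
      simp
    refine ⟨s.length, by omega, ?_, ?_⟩
    · rw [P_iff x (by omega), ed]
      have e : w.length + 1 - s.length = u.length := by omega
      rw [e, List.take_length, hr]
    · intro j hj he
      rw [E_iff x (by omega) (by omega), ed] at he
      have e : w.length + 1 - s.length = u.length := by omega
      rw [e, List.take_length] at he
      refine hn ?_
      have e2 : (x.drop j).take u.length = (w.drop j).take u.length := by
        rw [hx, List.drop_append_of_le_length (by omega), List.take_append_of_le_length]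
        simp; omega
      rw [e2] at he
      rw [← he]
      exact ((List.take_prefix _ _).isInfix).trans (List.drop_suffix _ _).isInfix

theorem palFactors_finite (w : List ℕ) : (palFactors w).Finite := by
  refine Set.Finite.subset (List.finite_toSet (w.tails.flatMap List.inits)) ?_
  intro u hu
  obtain ⟨s, t, h⟩ := hu.1
  simp only [Set.mem_ofPred_eq, List.mem_flatMap, List.mem_tails, List.mem_inits]
  exact ⟨u ++ t, ⟨s, by rw [← h]; simp⟩, ⟨t, rfl⟩⟩

theorem palFactors_append (w : List ℕ) (a : ℕ) :
    ((palFactors (w ++ [a])).ncard = (palFactors w).ncard + 1 ∧ New (gl (w ++ [a])) (w.length + 1)) ∨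
    ((palFactors (w ++ [a])).ncard = (palFactors w).ncard ∧
      ¬ New (gl (w ++ [a])) (w.length + 1)) := by
  have hsub : palFactors w ⊆ palFactors (w ++ [a]) := by
    intro u hu
    exact ⟨hu.1.trans (List.prefix_append w [a]).isInfix, hu.2⟩
  have hsuf : ∀ u ∈ palFactors (w ++ [a]), u ∉ palFactors w →
      u <:+ w ++ [a] ∧ u.reverse = u ∧ ¬ u <:+: w := by
    intro u hu hn
    have hn' : ¬ u <:+: w := fun h => hn ⟨h, hu.2⟩
    refine ⟨?_, hu.2, hn'⟩
    obtain ⟨s, t, h⟩ := hu.1
    rcases List.eq_nil_or_concat t with rfl | ⟨t', b, rfl⟩
    · exact ⟨s, by simpa using h⟩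
    · exfalso
      apply hn'
      have h2 : (s ++ u ++ t') ++ [b] = w ++ [a] := by simpa using h
      have h3 := List.append_inj_left' h2 rfl
      exact ⟨s, t', h3⟩
  by_cases h : New (gl (w ++ [a])) (w.length + 1)
  · left
    refine ⟨?_, h⟩
    obtain ⟨u, hu1, hu2, hu3⟩ := (new_iff w a).1 h
    have huP : u ∈ palFactors (w ++ [a]) := ⟨hu1.isInfix, hu2⟩
    have huN : u ∉ palFactors w := fun h => hu3 h.1
    have hins : palFactors (w ++ [a]) = insert u (palFactors w) := by
      apply Set.Subset.antisymm
      · intro v hv
        by_cases hvw : v ∈ palFactors w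
        · exact Set.mem_insert_of_mem _ hvw
        · obtain ⟨hv1, hv2, hv3⟩ := hsuf v hv hvw
          -- two palindromic suffixes
          have key : ∀ p q : List ℕ, p <:+ w ++ [a] → p.reverse = p → q <:+ w ++ [a] →
              q.reverse = q → p.length < q.length → p <:+: w := by
            intro p q hp hpr hq hqr hlt
            have h1 : p <:+ q := List.suffix_of_suffix_length_le hp hq hlt.le
            have h2 : p <+: q := by
              rw [← hpr, ← hqr]
              exact List.reverse_prefix.2 h1
            obtain ⟨t, ht⟩ := h2
            obtain ⟨s, hs⟩ := hq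
            have htn : t ≠ [] := by
              rintro rfl
              have := congrArg List.length ht
              simp at this
              omega
            rcases List.eq_nil_or_concat t with rfl | ⟨t', b, rfl⟩
            · exact absurd rfl htn
            · have h2 : (s ++ p ++ t') ++ [b] = w ++ [a] := by
                rw [← hs, ← ht]
                simp
              have h3 := List.append_inj_left' h2 rfl
              exact ⟨s, t', h3⟩
          rcases lt_trichotomy v.length u.length with hlt | heq | hlt
          · exact absurd (key v u hv1 hv2 hu1 hu2 hlt) hv3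
          · have : v = u := by
              have h1 : v <:+ u := List.suffix_of_suffix_length_le hv1 hu1 heq.le
              exact h1.eq_of_length heq
            rw [this]
            exact Set.mem_insert _ _
          · exact absurd (key u v hu1 hu2 hv1 hv2 hlt) hu3
      · exact Set.insert_subset huP hsub
    rw [hins, Set.ncard_insert_of_notMem huN (palFactors_finite w)]
  · right
    refine ⟨?_, h⟩
    congr 1
    apply Set.Subset.antisymm _ hsub
    intro v hv
    by_contra hvw
    exact h ((new_iff w a).2 ⟨v, hsuf v hv hvw⟩)

theorem dc_congr {g g' : ℕ → ℕ} {n : ℕ} (h : ∀ i < n, g' i = g i) : dc g' n = dc g n := by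
  classical
  unfold dc
  congr 1
  apply Finset.filter_congr
  intro m hm
  rw [Finset.mem_range] at hm
  rw [not_iff_not]
  exact ⟨fun h1 => h1.congr fun i hi => (h i (by omega)).symm,
    fun h1 => h1.congr fun i hi => h i (by omega)⟩

theorem dc_succ (g : ℕ → ℕ) (n : ℕ) :
    (New g (n + 1) ∧ dc g (n + 1) = dc g n) ∨ (¬ New g (n + 1) ∧ dc g (n + 1) = dc g n + 1) := by
  classical
  unfold dc
  by_cases h : New g (n + 1)
  · left
    refine ⟨h, ?_⟩
    rw [Finset.range_add_one, Finset.filter_insert, if_neg (by simpa using h)]
  · right
    refine ⟨h, ?_⟩
    rw [Finset.range_add_one, Finset.filter_insert, if_pos h, Finset.card_insert_of_notMem (by simp)]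

theorem dc_mono (g : ℕ → ℕ) : Monotone (dc g) := by
  apply monotone_nat_of_le_succ
  intro n
  rcases dc_succ g n with ⟨_, h⟩ | ⟨_, h⟩ <;> omega

theorem ncard_add_dc (w : List ℕ) : (palFactors w).ncard + dc (gl w) w.length = w.length + 1 := by
  induction w using List.reverseRecOn with
  | nil =>
    have : palFactors [] = {[]} := by
      ext u
      simp [palFactors]
      rintro rfl
      rfl
    simp [this, dc]
  | append_singleton w a ih =>
    have e1 : dc (gl (w ++ [a])) w.length = dc (gl w) w.length :=
      dc_congr fun i hi => gl_append hi
    have e2 : (w ++ [a]).length = w.length + 1 := by simp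
    rw [e2]
    rcases palFactors_append w a with ⟨h1, h2⟩ | ⟨h1, h2⟩
    · rcases dc_succ (gl (w ++ [a])) w.length with ⟨_, h3⟩ | ⟨h3, _⟩
      · omega
      · exact absurd h2 h3
    · rcases dc_succ (gl (w ++ [a])) w.length with ⟨h3, _⟩ | ⟨_, h3⟩
      · exact absurd h3 h2
      · omega

theorem defect_eq (w : List ℕ) : defect w = dc (gl w) w.length := by
  have := ncard_add_dc w
  unfold defect
  omega

theorem defect_reverse (w : List ℕ) : defect w.reverse = defect w := by
  have : palFactors w.reverse = palFactors w := by
    ext u
    constructor
    · rintro ⟨h1, h2⟩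
      refine ⟨?_, h2⟩
      rw [← h2] at h1
      exact List.reverse_infix.1 h1
    · rintro ⟨h1, h2⟩
      refine ⟨?_, h2⟩
      rw [← h2]
      exact List.reverse_infix.2 h1
  unfold defect
  rw [this]
  simp

theorem defect_prefix {u w : List ℕ} (h : u <+: w) : defect u ≤ defect w := by
  obtain ⟨t, rfl⟩ := h
  rw [defect_eq, defect_eq, ← dc_congr (g := gl u) (g' := gl (u ++ t)) fun i hi => gl_append hi]
  exact dc_mono _ (by simp)

theorem defect_suffix {u w : List ℕ} (h : u <:+ w) : defect u ≤ defect w := by
  rw [← defect_reverse u, ← defect_reverse w]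
  exact defect_prefix (List.reverse_prefix.2 h)

theorem defect_infix {u w : List ℕ} (h : u <:+: w) : defect u ≤ defect w := by
  obtain ⟨s, t, rfl⟩ := h
  exact (defect_suffix (List.suffix_append s u)).trans (defect_prefix (List.prefix_append _ t))

end Pool.Agent.X238.Dft
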